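import Pool.Agent.N875.K17.Stm
import Pool.Agent.N49.QB.Base
import Pool.Agent.N49.QB.Ev

/-!
# Project K17 (helper875), part 17N (helper391): the necessary condition at the places over `17`

The lemmas of the first section are adapted from `Pool/Agent/N49/QB/Base.lean`.
-/

set_option autoImplicit false

open NumberField IsDedekindDomain WithZero

namespace Pool.Agent.N391.K17

open Pool.Agent.N875.K17 (Qd LoE C17)
open Pool.Agent.N49.QB (VV)

section
variable {K : Type} [Field K] [NumberField K] {m : ℤ} {r : K}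

/-- the square root of `m` is integral -/
theorem exists_int (h : Qd m K r) : ∃ δ : 𝓞 K, algebraMap (𝓞 K) K δ = r ∧ δ ^ 2 = (m : 𝓞 K) := by
  have hi : IsIntegral ℤ r := by
    refine IsIntegral.of_pow (n := 2) (by norm_num) ?_
    rw [h.hr]
    exact isIntegral_algebraMap (R := ℤ) (A := K) (x := m) |> fun h => by simpa using h
  obtain ⟨δ, hδ⟩ := (IsIntegralClosure.isIntegral_iff (R := ℤ) (A := 𝓞 K)).1 hi
  refine ⟨δ, hδ, ?_⟩
  apply FaithfulSMul.algebraMap_injective (𝓞 K) K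
  rw [map_pow, map_intCast, hδ]
  exact h.hr

/-- a prime which does not divide `2 m` is not ramified -/
theorem not_mem_sq (h : Qd m K r) {p : ℕ} (hp : p.Prime) (hpD : ¬ (p : ℤ) ∣ 2 * m)
    (v : HeightOneSpectrum (𝓞 K)) (hv : ((p : ℕ) : 𝓞 K) ∈ v.asIdeal) :
    ((p : ℕ) : 𝓞 K) ∉ v.asIdeal ^ 2 := by
  intro h2
  obtain ⟨δ, hδ, hδ2⟩ := exists_int h
  have hadj : Algebra.adjoin ℚ {algebraMap (𝓞 K) K δ} = ⊤ := by
    rw [eq_top_iff]
    rintro x -
    obtain ⟨a, b, hx⟩ := h.hK x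
    rw [hδ]
    have e : x = algebraMap ℚ K a + algebraMap ℚ K b * r := hx
    rw [e]
    exact add_mem (Subalgebra.algebraMap_mem _ _) (mul_mem (Subalgebra.algebraMap_mem _ _)
      (Algebra.subset_adjoin rfl))
  have h3 := aeval_derivative_mem_differentIdeal ℤ ℚ K δ hadj
  have hpp : Prime (p : ℤ) := Nat.prime_iff_prime_int.1 hp
  have hpb : Ideal.span {(p : ℤ)} ≠ ⊥ := by
    rw [Ne, Ideal.span_singleton_eq_bot]
    exact_mod_cast hp.ne_zero
  have hpm : (Ideal.span {(p : ℤ)}).IsMaximal :=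
    Ideal.IsPrime.isMaximal ((Ideal.span_singleton_prime hpp.ne_zero).2 hpp) hpb
  have h4 : v.asIdeal ^ (2 - 1) ∣ differentIdeal ℤ (𝓞 K) := by
    apply pow_sub_one_dvd_differentIdeal ℤ v.asIdeal 2 (p := Ideal.span {(p : ℤ)}) hpb
    rw [Ideal.map_span, Set.image_singleton, Ideal.dvd_span_singleton]
    simpa using h2
  rw [pow_one, Ideal.dvd_iff_le] at h4
  have h5 := h4 h3
  have hint : IsIntegral ℤ δ := RingOfIntegers.isIntegral δ
  obtain ⟨g, hg⟩ : minpoly ℤ δ ∣ (Polynomial.X ^ 2 - Polynomial.C m : Polynomial ℤ) := by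
    apply minpoly.isIntegrallyClosed_dvd hint
    simp [hδ2]
  have h6 := congrArg (fun q => Polynomial.aeval δ (Polynomial.derivative q)) hg
  simp only [Polynomial.derivative_sub, Polynomial.derivative_X_pow, Polynomial.derivative_C,
    sub_zero, Polynomial.derivative_mul, map_add, map_mul, minpoly.aeval, zero_mul, add_zero] at h6
  have h7 : 2 * δ ∈ v.asIdeal := by
    have e : 2 * δ = Polynomial.aeval δ (Polynomial.derivative (minpoly ℤ δ)) *
        Polynomial.aeval δ g := by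
      rw [← h6, Polynomial.aeval_C, map_pow, Polynomial.aeval_X]
      norm_num
    rw [e]
    exact Ideal.mul_mem_right _ _ h5
  have h8 : ((2 * m : ℤ) : 𝓞 K) ∈ v.asIdeal := by
    have e : ((2 * m : ℤ) : 𝓞 K) = δ * (2 * δ) := by
      push_cast
      rw [← hδ2]
      ring
    rw [e]
    exact Ideal.mul_mem_left _ _ h7
  exact Pool.Agent.N49.QB.not_mem_of_not_dvd hp v hv _ hpD h8

/-- the uniformizer -/
theorem vv_p (h : Qd m K r) {p : ℕ} (hp : p.Prime) (hpD : ¬ (p : ℤ) ∣ 2 * m)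
    (v : HeightOneSpectrum (𝓞 K)) (hv : ((p : ℕ) : 𝓞 K) ∈ v.asIdeal) :
    VV v ((p : ℕ) : v.adicCompletion K) = exp (-1 : ℤ) := by
  have h1 := Pool.Agent.N49.QB.val_exp v hv (not_mem_sq h hp hpD v hv)
  have h2 := Pool.Agent.N49.QB.vv_int v (p : ℤ)
  rw [Int.cast_natCast, Int.cast_natCast] at h2
  rw [h2, h1]

/-- an integer exactly divisible by `p` -/
theorem vv_sqf (h : Qd m K r) {p : ℕ} (hp : p.Prime) (hpD : ¬ (p : ℤ) ∣ 2 * m)
    (v : HeightOneSpectrum (𝓞 K)) (hv : ((p : ℕ) : 𝓞 K) ∈ v.asIdeal) (a : ℤ) (ha : Squarefree a)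
    (hpa : (p : ℤ) ∣ a) : VV v ((a : ℤ) : v.adicCompletion K) = exp (-1 : ℤ) := by
  obtain ⟨b, rfl⟩ := hpa
  have hb : ¬ (p : ℤ) ∣ b := by
    rintro ⟨c, rfl⟩
    have h1 := ha (p : ℤ) ⟨c, by ring⟩
    exact (Nat.prime_iff_prime_int.1 hp).not_isUnit h1
  rw [Int.cast_mul, map_mul, Pool.Agent.N49.QB.vv_one hp v hv b hb, mul_one, Int.cast_natCast]
  exact vv_p h hp hpD v hv

/-- if `m` is a square modulo `p` then the residue field is the prime field -/
theorem res_int (h : Qd m K r) (hm : Squarefree m) (hm1 : m ≠ 1) {p : ℕ} (hp : p.Prime)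
    (hp2 : p ≠ 2) (v : HeightOneSpectrum (𝓞 K)) (hv : ((p : ℕ) : 𝓞 K) ∈ v.asIdeal) (c : ℤ)
    (hc : (p : ℤ) ∣ c ^ 2 - m) (x : 𝓞 K) : ∃ k : ℤ, x - (k : 𝓞 K) ∈ v.asIdeal := by
  obtain ⟨δ, hδ, hδ2⟩ := exists_int h
  have hrd : r ^ 2 = (m : K) := h.hr
  obtain ⟨t, u, -, htu⟩ := Pool.Agent.N49.QB.coords
    (fun q => Pool.Agent.N49.QB.not_rat hm hm1 hrd q) hm hrd h.hK (x : K) x.2
  have htu' : 2 * x = (t : 𝓞 K) + (u : 𝓞 K) * δ := by
    apply FaithfulSMul.algebraMap_injective (𝓞 K) K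
    rw [map_mul, map_add, map_mul, hδ, map_intCast, map_intCast, map_ofNat]
    exact htu
  -- `δ ≡ ± c`
  have h1 : (δ - (c : 𝓞 K)) * (δ + (c : 𝓞 K)) ∈ v.asIdeal := by
    have e : (δ - (c : 𝓞 K)) * (δ + (c : 𝓞 K)) = -(((c ^ 2 - m : ℤ)) : 𝓞 K) := by
      push_cast
      rw [← hδ2]
      ring
    rw [e]
    exact neg_mem (Pool.Agent.N49.QB.mem_of_dvd v hv _ hc)
  obtain ⟨c', hc'⟩ : ∃ c' : ℤ, δ - (c' : 𝓞 K) ∈ v.asIdeal := by
    rcases v.isPrime.mem_or_mem h1 with h2 | h2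
    · exact ⟨c, h2⟩
    · refine ⟨-c, ?_⟩
      push_cast
      rwa [sub_neg_eq_add]
  obtain ⟨k, hk⟩ : ∃ k : ℤ, (p : ℤ) = 2 * k - 1 := by
    have := hp.eq_two_or_odd
    exact ⟨((p : ℤ) + 1) / 2, by omega⟩
  refine ⟨k * (t + u * c'), ?_⟩
  have e : x - ((k * (t + u * c') : ℤ) : 𝓞 K) = -(x * ((p : ℕ) : 𝓞 K)) +
      (k : 𝓞 K) * (u : 𝓞 K) * (δ - (c' : 𝓞 K)) := by
    have hk' : ((p : ℕ) : 𝓞 K) = 2 * (k : 𝓞 K) - 1 := by
      have := congrArg (fun z : ℤ => (z : 𝓞 K)) hk
      push_cast at this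
      exact this
    rw [hk']
    push_cast
    linear_combination (k : 𝓞 K) * htu'
  rw [e]
  exact add_mem (neg_mem (Ideal.mul_mem_left _ _ hv)) (Ideal.mul_mem_left _ _ hc')

/-- squares of the completion which are integers are squares modulo `p`, if `m` is a square
modulo `p` -/
theorem sq_res (h : Qd m K r) (hm : Squarefree m) (hm1 : m ≠ 1) {p : ℕ} (hp : p.Prime)
    (hp2 : p ≠ 2) (v : HeightOneSpectrum (𝓞 K)) (hv : ((p : ℕ) : 𝓞 K) ∈ v.asIdeal) (c : ℤ)
    (hc : (p : ℤ) ∣ c ^ 2 - m) (n : ℤ) (hs : IsSquare (n : v.adicCompletion K)) :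
    ∃ k : ℤ, (p : ℤ) ∣ k ^ 2 - n := by
  obtain ⟨s, hs⟩ := hs
  have h1 : VV v s ≤ 1 := by
    by_contra hcon
    push Not at hcon
    have h2 : VV v (s ^ 2) ≤ 1 := by
      rw [sq, ← hs]
      exact Pool.Agent.N49.QB.vv_le_one v n
    rw [map_pow] at h2
    exact absurd h2 (not_le.2 (one_lt_pow' hcon (by norm_num)))
  obtain ⟨y, hy⟩ := Pool.Agent.H723R3.exists_approx_int (R := 𝓞 K) v
    ((HeightOneSpectrum.mem_adicCompletionIntegers (𝓞 K) K v).2 h1) 1
  rw [Units.val_one] at hy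
  obtain ⟨k, hk⟩ := res_int h hm hm1 hp hp2 v hv c hc y
  set Y : v.adicCompletion K := algebraMap (𝓞 K) (v.adicCompletion K) y with hY
  have h3 : VV v (Y - (k : v.adicCompletion K)) < 1 := by
    have := Pool.Agent.N49.QB.vv_emb v _ hk
    rwa [map_sub, map_intCast] at this
  have h4 : VV v (s - (k : v.adicCompletion K)) < 1 := by
    have e : s - (k : v.adicCompletion K) = (Y - (k : v.adicCompletion K)) - (Y - s) := by ring
    rw [e]
    exact (VV v).map_sub_lt h3 hy
  have h5 : VV v (((k ^ 2 - n : ℤ)) : v.adicCompletion K) < 1 := by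
    have e : (((k ^ 2 - n : ℤ)) : v.adicCompletion K) =
        -((s - (k : v.adicCompletion K)) * (s + (k : v.adicCompletion K))) := by
      push_cast
      rw [hs]
      ring
    rw [e, Valuation.map_neg, map_mul]
    exact mul_lt_one_of_lt_of_le h4 ((VV v).map_add_le h1 (Pool.Agent.N49.QB.vv_le_one v k))
  refine ⟨k, ?_⟩
  by_contra hcon
  rw [Pool.Agent.N49.QB.vv_one hp v hv _ hcon] at h5
  exact lt_irrefl _ h5

end

/-! ### the points -/

section
variable {L : Type} [Field L] (V : Valuation L ℤᵐ⁰)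

lemma isq_div {x y z : L} (hy : y ≠ 0) (h : z ^ 2 = x * y) (hs : IsSquare y) : IsSquare x := by
  obtain ⟨t, ht⟩ := hs
  have ht0 : t ≠ 0 := by
    rintro rfl
    rw [mul_zero] at ht
    exact hy ht
  refine ⟨z / t, ?_⟩
  rw [div_mul_div_comm, ← ht, ← sq, h, mul_div_assoc, div_self hy, mul_one]

/-- the coordinate `x` of a point is a square -/
theorem pt_sq (h17 : V (17 : L) < 1) (h16 : V (16 : L) = 1)
    (hh : ∀ z : L, V (z - 1) < 1 → IsSquare z) {x y : L} (hy : y ≠ 0)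
    (he : y ^ 2 = x * ((x + 1) * (x - 16))) : IsSquare x := by
  have h160 : (16 : L) ≠ 0 := fun h => by
    rw [h, map_zero] at h16
    exact zero_ne_one h16
  have hy2 : y ^ 2 ≠ 0 := pow_ne_zero 2 hy
  have hx : x ≠ 0 := by rintro rfl; rw [he] at hy2; simp at hy2
  have hp : (x + 1) * (x - 16) ≠ 0 := by intro h; rw [he, h] at hy2; simp at hy2
  have hx1 : x + 1 ≠ 0 := fun h => hp (by rw [h, zero_mul])
  have hm1 : IsSquare (-1 : L) := by
    have h1 : IsSquare (-(1 / 16) : L) := by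
      apply hh
      have e : (-(1 / 16) : L) - 1 = -(17 / 16) := by
        field_simp
        norm_num
      rw [e, Valuation.map_neg, map_div₀, h16, div_one]
      exact h17
    have h2 : IsSquare (16 : L) := ⟨4, by norm_num⟩
    have h3 := h1.mul h2
    have e : (-(1 / 16) : L) * 16 = -1 := by field_simp
    rwa [e] at h3
  suffices hs : IsSquare ((x + 1) * (x - 16)) ∨ IsSquare x by
    rcases hs with hs | hs
    · exact isq_div hp he hs
    · exact hs
  have hvx : V x ≠ 0 := (V.ne_zero_iff).2 hx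
  rcases lt_trichotomy (V x) 1 with h | h | h
  · left
    have a1 : IsSquare (x + 1) := hh _ (by rw [add_sub_cancel_right]; exact h)
    have a2 : IsSquare (1 - x / 16) := hh _ (by
      have e : 1 - x / 16 - 1 = -(x / 16) := by ring
      rw [e, Valuation.map_neg, map_div₀, h16, div_one]
      exact h)
    have a3 : IsSquare (16 : L) := ⟨4, by norm_num⟩
    have e : (x + 1) * (x - 16) = (x + 1) * (-1 * 16 * (1 - x / 16)) := by
      field_simp
      ring
    rw [e]
    exact a1.mul ((hm1.mul a3).mul a2)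
  · by_cases h1 : V (x + 1) < 1
    · right
      have a1 : IsSquare (-x) := hh _ (by
        have e : -x - 1 = -(x + 1) := by ring
        rw [e, Valuation.map_neg]
        exact h1)
      have e : x = -1 * -x := by ring
      rw [e]
      exact hm1.mul a1
    · left
      have h2 : V (x + 1) = 1 :=
        le_antisymm (V.map_add_le h.le (by rw [map_one])) (not_lt.1 h1)
      have a1 : IsSquare (1 - 17 / (x + 1)) := hh _ (by
        have e : 1 - 17 / (x + 1) - 1 = -(17 / (x + 1)) := by ring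
        rw [e, Valuation.map_neg, map_div₀, h2, div_one]
        exact h17)
      have e : (x + 1) * (x - 16) = (x + 1) * (x + 1) * (1 - 17 / (x + 1)) := by
        field_simp
        ring
      rw [e]
      exact (IsSquare.mul_self (x + 1)).mul a1
  · left
    have h3 : V (1 / x) < 1 := by
      rw [map_div₀, map_one]
      exact (div_lt_one₀ (zero_lt_iff.2 hvx)).2 h
    have a1 : IsSquare (1 + 1 / x) := hh _ (by rw [add_sub_cancel_left]; exact h3)
    have a2 : IsSquare (1 - 16 / x) := hh _ (by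
      have e : 1 - 16 / x - 1 = -(16 * (1 / x)) := by ring
      rw [e, Valuation.map_neg, map_mul, h16, one_mul]
      exact h3)
    have e : (x + 1) * (x - 16) = x * x * ((1 + 1 / x) * (1 - 16 / x)) := by
      field_simp
    rw [e]
    exact (IsSquare.mul_self x).mul (a1.mul a2)

end

instance : Fact (Nat.Prime 17) := ⟨by norm_num⟩

lemma jac_one {n : ℤ} (hn : ¬ (17 : ℤ) ∣ n) (h : ∃ k : ℤ, (17 : ℤ) ∣ k ^ 2 - n) :
    jacobiSym n 17 = 1 := by
  have h0 : (n : ZMod 17) ≠ 0 := by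
    rw [Ne, ZMod.intCast_zmod_eq_zero_iff_dvd]
    exact hn
  have e := jacobiSym.legendreSym.to_jacobiSym 17 n
  rw [← e, legendreSym.eq_one_iff 17 h0]
  obtain ⟨k, hk⟩ := h
  refine ⟨(k : ZMod 17), ?_⟩
  have h1 : (((k ^ 2 - n : ℤ)) : ZMod 17) = 0 := by
    rw [ZMod.intCast_zmod_eq_zero_iff_dvd]
    exact hk
  push_cast at h1
  linear_combination -h1

lemma jac_ex {n : ℤ} (h : jacobiSym n 17 = 1) : ∃ k : ℤ, (17 : ℤ) ∣ k ^ 2 - n := by
  have e := jacobiSym.legendreSym.to_jacobiSym 17 n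
  rw [← e] at h
  have h0 : (n : ZMod 17) ≠ 0 := by
    intro h0
    rw [(legendreSym.eq_zero_iff 17 n).2 h0] at h
    exact zero_ne_one h
  obtain ⟨k, hk⟩ := (legendreSym.eq_one_iff 17 h0).1 h
  refine ⟨(k.val : ℤ), ?_⟩
  have h1 : ((((k.val : ℤ)) ^ 2 - n : ℤ) : ZMod 17) = 0 := by
    push_cast
    rw [ZMod.natCast_zmod_val, hk]
    ring
  rw [ZMod.intCast_zmod_eq_zero_iff_dvd] at h1
  exact h1

theorem t_17N : Pool.Agent.N875.K17.S_17N := by
  intro m hm hm1 K _ _ r hq w hw a b ha hb hL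
  have hp : Nat.Prime 17 := by norm_num
  have hpZ : Prime (17 : ℤ) := by exact_mod_cast Nat.prime_iff_prime_int.1 hp
  have hw' : ((17 : ℕ) : 𝓞 K) ∈ w.asIdeal := by exact_mod_cast hw
  obtain ⟨x, y, hy0, he, hsa, -⟩ := hL
  have he' : y ^ 2 = x * ((x + 1) * (x - 16)) := by
    rw [he]
    push_cast
    ring
  have hsa' : IsSquare (x * (a : w.adicCompletion K)) := by
    have e : x * (a : w.adicCompletion K) = (x - ((0 : ℤ) : w.adicCompletion K)) * a := by
      push_cast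
      ring
    rw [e]
    exact hsa
  have h17 : VV w (17 : w.adicCompletion K) < 1 := by
    have := Pool.Agent.N49.QB.vv_emb w _ hw
    rwa [map_ofNat] at this
  have h16 : VV w (16 : w.adicCompletion K) = 1 := by
    have := Pool.Agent.N49.QB.vv_one hp w hw' 16 (by norm_num)
    exact_mod_cast this
  have hh : ∀ z : w.adicCompletion K, VV w (z - 1) < 1 → IsSquare z :=
    fun z hz => Pool.Agent.N49.QB.hensel hp (by norm_num) w hw' z hz
  have hxs := pt_sq (VV w) h17 h16 hh hy0 he'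
  have hx0 : x ≠ 0 := by
    rintro rfl
    rw [zero_mul] at he'
    exact pow_ne_zero 2 hy0 he'
  -- `a` is a square
  have has : IsSquare (a : w.adicCompletion K) := by
    obtain ⟨s, hs⟩ := hsa'
    exact isq_div (z := s) hx0 (by rw [sq, ← hs, mul_comm]) hxs
  have h2m : ¬ (17 : ℤ) ∣ m → ¬ ((17 : ℕ) : ℤ) ∣ 2 * m := by
    intro h h'
    rcases hpZ.dvd_or_dvd (by exact_mod_cast h') with h2 | h2
    · norm_num at h2
    · exact h h2
  -- unramified: `17 ∤ a`
  have hun : ¬ (17 : ℤ) ∣ m → ¬ (17 : ℤ) ∣ a := by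
    intro h h'
    have h1 := vv_sqf hq hp (h2m h) w hw' a ha (by exact_mod_cast h')
    obtain ⟨s, hs⟩ := has
    have h3 := congrArg (VV w) hs
    rw [map_mul, h1] at h3
    exact Pool.Agent.N49.QB.not_isq ⟨_, h3⟩
  have hres : ∀ c : ℤ, (17 : ℤ) ∣ c ^ 2 - m → ∀ n : ℤ, ¬ (17 : ℤ) ∣ n →
      IsSquare (n : w.adicCompletion K) → jacobiSym n 17 = 1 := by
    intro c hc n hn hs
    refine jac_one hn ?_
    obtain ⟨k, hk⟩ := sq_res hq hm hm1 hp (by norm_num) w hw' c (by exact_mod_cast hc) n hs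
    exact ⟨k, by exact_mod_cast hk⟩
  have hjz : ∀ {n : ℤ}, (17 : ℤ) ∣ n → jacobiSym n 17 = 0 := by
    intro n hn
    rw [← jacobiSym.legendreSym.to_jacobiSym 17 n, legendreSym.eq_zero_iff,
      ZMod.intCast_zmod_eq_zero_iff_dvd]
    exact hn
  refine ⟨fun h => hun fun h' => ?_, fun h => ?_, fun h => ?_⟩
  · rw [hjz h'] at h
    norm_num at h
  · obtain ⟨c, hc⟩ := jac_ex h
    exact hres c hc a (hun fun h' => by rw [hjz h'] at h; norm_num at h) has
  · have hc : (17 : ℤ) ∣ (0 : ℤ) ^ 2 - m := by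
      have e : (0 : ℤ) ^ 2 - m = -m := by ring
      rw [e]
      exact (dvd_neg).2 h
    by_cases h1 : (17 : ℤ) ∣ a
    · right
      refine ⟨h1, ?_⟩
      obtain ⟨a', rfl⟩ := h1
      obtain ⟨m', rfl⟩ := h
      rw [Int.mul_ediv_cancel_left _ (by norm_num), Int.mul_ediv_cancel_left _ (by norm_num)]
      have hnu : ∀ {z : ℤ}, Squarefree (17 * z) → ¬ (17 : ℤ) ∣ z := by
        rintro z hz ⟨u, rfl⟩
        exact hpZ.not_isUnit (hz 17 ⟨u, by ring⟩)
      refine hres 0 hc _ (fun h2 => ?_) ?_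
      · rcases hpZ.dvd_or_dvd h2 with h3 | h3
        · exact hnu ha h3
        · exact hnu hm h3
      · -- `a m = 17² n`
        have hms : IsSquare ((17 * m' : ℤ) : w.adicCompletion K) := by
          refine ⟨algebraMap K (w.adicCompletion K) r, ?_⟩
          rw [← map_mul, ← sq, hq.hr, map_intCast]
        have h170 : (17 : w.adicCompletion K) ≠ 0 := by
          have h3 : ((17 : ℕ) : w.adicCompletion K) ≠ 0 := by
            have : CharZero (w.adicCompletion K) :=
              charZero_of_injective_algebraMap (algebraMap K (w.adicCompletion K)).injective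
            exact Nat.cast_ne_zero.2 (by norm_num)
          exact_mod_cast h3
        obtain ⟨t, ht⟩ := has.mul hms
        refine ⟨t / 17, ?_⟩
        rw [div_mul_div_comm, ← ht]
        push_cast
        field_simp
    · left
      exact hres 0 hc a h1 has

end Pool.Agent.N391.K17
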