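import Pool.Agent.N875.K17.Stm

/-!
# Project K17 (helper875), part INF (helper391): the infinite places

Adapted from `Pool/Agent/N833/QB/N3.lean`.
-/

set_option autoImplicit false

open NumberField IsDedekindDomain

namespace Pool.Agent.N391.K17

open Pool.Agent.N875.K17 (Qd)
open Pool.Agent.N856.QB (Lo)

/-- transport of the local condition -/
lemma Lo_map {L L' : Type} [Field L] [Field L'] (j : L →+* L') {a b c u v : ℤ}
    (h : Lo L a b c (u : L) (v : L)) : Lo L' a b c (u : L') (v : L') := by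
  obtain ⟨x, y, hy, h1, ⟨s, hs⟩, ⟨t, ht⟩⟩ := h
  refine ⟨j x, j y, (map_ne_zero j).2 hy, ?_, ⟨j s, ?_⟩, ⟨j t, ?_⟩⟩
  · have := congrArg j h1
    simpa only [map_pow, map_mul, map_sub, map_intCast] using this
  · have := congrArg j hs
    simpa only [map_pow, map_mul, map_sub, map_intCast] using this
  · have := congrArg j ht
    simpa only [map_pow, map_mul, map_sub, map_intCast] using this

lemma isSquare_of_nonneg {x : ℝ} (hx : 0 ≤ x) : IsSquare x :=
  ⟨Real.sqrt x, (Real.mul_self_sqrt hx).symm⟩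

lemma isSquare_C (z : ℂ) : IsSquare z := by
  obtain ⟨s, hs⟩ := IsAlgClosed.exists_pow_nat_eq z zero_lt_two
  exact ⟨s, by rw [← sq, hs]⟩

lemma real_pos {a b : ℤ} (hb : b ≠ 0) (h : Lo ℝ 0 (-1) 16 (a : ℝ) (b : ℝ)) : 0 < b := by
  obtain ⟨x, y, hy, h1, -, ⟨t, ht⟩⟩ := h
  by_contra hcon
  have hb' : (b : ℝ) < 0 := by exact_mod_cast lt_of_le_of_ne (not_lt.1 hcon) hb
  push_cast at h1 ht
  have h2 : 0 < y ^ 2 := by positivity
  have h3 : 0 ≤ (x - -1) * (b : ℝ) := by rw [ht]; exact mul_self_nonneg t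
  have h4 : x + 1 ≤ 0 := by nlinarith
  have h5 : x * (x - 16) > 0 := by nlinarith
  have h6 : (x - 0) * (x - -1) * (x - 16) = (x * (x - 16)) * (x + 1) := by ring
  rw [h1, h6] at h2
  nlinarith

lemma real_Lo {a b : ℤ} (ha : a ≠ 0) (hb : 0 < b) : Lo ℝ 0 (-1) 16 (a : ℝ) (b : ℝ) := by
  have hb' : (0 : ℝ) < b := by exact_mod_cast hb
  rcases lt_or_gt_of_ne ha with h | h
  · have ha' : (a : ℝ) < 0 := by exact_mod_cast h
    refine ⟨-1 / 2, Real.sqrt (33 / 8), (Real.sqrt_pos.2 (by norm_num)).ne', ?_, ?_, ?_⟩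
    · rw [Real.sq_sqrt (by norm_num)]
      push_cast
      norm_num
    · apply isSquare_of_nonneg
      push_cast
      nlinarith
    · apply isSquare_of_nonneg
      push_cast
      nlinarith
  · have ha' : (0 : ℝ) < a := by exact_mod_cast h
    refine ⟨17, Real.sqrt 306, (Real.sqrt_pos.2 (by norm_num)).ne', ?_, ?_, ?_⟩
    · rw [Real.sq_sqrt (by norm_num)]
      push_cast
      norm_num
    · apply isSquare_of_nonneg
      push_cast
      nlinarith
    · apply isSquare_of_nonneg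
      push_cast
      nlinarith

lemma complex_Lo (a b : ℤ) : Lo ℂ 0 (-1) 16 (a : ℂ) (b : ℂ) := by
  obtain ⟨y, hy⟩ := IsAlgClosed.exists_pow_nat_eq (306 : ℂ) zero_lt_two
  refine ⟨17, y, ?_, ?_, isSquare_C _, isSquare_C _⟩
  · rintro rfl
    norm_num at hy
  · rw [hy]
    push_cast
    norm_num

lemma isReal_of_pos {K : Type} [Field K] [NumberField K] {r : K} {m : ℤ} (hm : 0 < m)
    (hr : r ^ 2 = (m : K)) (hK : ∀ x : K, ∃ a b : ℚ, x = (a : K) + (b : K) * r)
    (v : InfinitePlace K) : v.IsReal := by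
  rw [InfinitePlace.isReal_iff, ComplexEmbedding.isReal_iff]
  have hconj : (starRingEnd ℂ) (v.embedding r) = v.embedding r := by
    have h1 : (v.embedding r) ^ 2 = (m : ℂ) := by rw [← map_pow, hr, map_intCast]
    have h2 : ((Real.sqrt m : ℝ) : ℂ) ^ 2 = (m : ℂ) := by
      rw [← Complex.ofReal_pow, Real.sq_sqrt (by exact_mod_cast hm.le)]
      norm_cast
    have h3 : (v.embedding r) ^ 2 = ((Real.sqrt m : ℝ) : ℂ) ^ 2 := by rw [h1, h2]
    rcases sq_eq_sq_iff_eq_or_eq_neg.1 h3 with h | h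
    · rw [h, Complex.conj_ofReal]
    · rw [h, map_neg, Complex.conj_ofReal]
  ext x
  obtain ⟨a, b, rfl⟩ := hK x
  rw [ComplexEmbedding.conjugate_coe_eq]
  simp only [map_add, map_mul, map_ratCast, hconj]

lemma isComplex_of_neg {K : Type} [Field K] [NumberField K] {r : K} {m : ℤ} (hm : m < 0)
    (hr : r ^ 2 = (m : K)) (v : InfinitePlace K) : v.IsComplex := by
  rw [← InfinitePlace.not_isReal_iff_isComplex]
  intro hv
  have h1 : (InfinitePlace.embedding_of_isReal hv r) ^ 2 = (m : ℝ) := by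
    rw [← map_pow, hr, map_intCast]
  have h2 : (m : ℝ) < 0 := by exact_mod_cast hm
  have h3 := sq_nonneg (InfinitePlace.embedding_of_isReal hv r)
  linarith

theorem t_INF : Pool.Agent.N875.K17.S_INF := by
  intro m hm hm1 K _ _ r hq v a b ha hb
  have hm0 : m ≠ 0 := by
    rintro rfl
    exact not_squarefree_zero hm
  rcases lt_or_gt_of_ne hm0 with h | h
  · have hv := isComplex_of_neg h hq.hr v
    refine ⟨fun _ h' => absurd h' (by omega), fun _ => ?_⟩
    exact Lo_map (InfinitePlace.Completion.ringEquivComplexOfIsComplex hv).symm.toRingHom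
      (complex_Lo a b)
  · have hv := isReal_of_pos h hq.hr hq.hK v
    refine ⟨fun hL _ => ?_, fun hb' => ?_⟩
    · exact real_pos hb (Lo_map (InfinitePlace.Completion.extensionEmbeddingOfIsReal hv) hL)
    · exact Lo_map (InfinitePlace.Completion.ringEquivRealOfIsReal hv).symm.toRingHom
        (real_Lo ha (hb' h))

end Pool.Agent.N391.K17
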